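import Mathlib
import Pool.Agent.Helper290.Proj

set_option autoImplicit false

namespace Pool.Agent.Results.MP_3db952_lc.NoUniversal

open Set Pool.Agent.Helper290.Proj

/-- There is no countable projective algebra of plane sets into which every countable projective
algebra of plane sets embeds. -/
theorem result : ¬ ∃ U : Set (Set Plane), IsProjAlg U ∧ U.Countable ∧
    ∀ A : Set (Set Plane), IsProjAlg A → A.Countable →
      ∃ B : Set (Set Plane), B ⊆ U ∧ IsProjAlg B ∧ Isomorphic A B := by
  rintro ⟨U, -, hU, h⟩
  have : Countable U := hU.to_subtype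
  have hch : ∀ S : Set ℕ, ∃ H : U, decode (H : Set Plane) = S := by
    intro S
    obtain ⟨B, hBU, -, φ, h0, h1, h2, h3, h4, h5⟩ :=
      h (generated (range (fun _ : Fin 1 => code S))) (generated_isProjAlg _)
        (generated_countable le_rfl _)
    have hmem : code S ∈ generated (range (fun _ : Fin 1 => code S)) :=
      subset_generated _ ⟨0, rfl⟩
    refine ⟨⟨φ (code S), hBU (h0.mapsTo hmem)⟩, ?_⟩
    have := decode_map (generated_isProjAlg _) ⟨h1, h2, h3, h4, h5⟩ h0.injOn hmem
    rw [this, decode_code]
  have hsurj : Function.Surjective (fun H : U => decode (H : Set Plane)) := hch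
  have hcnt : Countable (Set ℕ) := hsurj.countable
  obtain ⟨f, hf⟩ := hcnt.exists_injective_nat
  exact Function.cantor_injective f hf

end Pool.Agent.Results.MP_3db952_lc.NoUniversal
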